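import Pool.Agent.Q116.Cyc.Main

set_option autoImplicit false

open SimpleGraph

/-- The inequality `h(δ,Δ,F) ≥ c · ex(K_Δ,F) · δ / Δ²` fails (with `δ = Δ`, infinitely often, for
every `c > 0`) for a suitable infinite family `F = {C_ℓ : ℓ ∈ K}` of even cycles containing `C_4`:
there are `F`-free graphs `T` on `Δ` vertices with `c · e(T) · Δ / Δ² > 1`, and a `Δ`-regular
graph `G` all of whose `F`-free spanning subgraphs have a vertex of degree at most one. -/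
theorem Pool.Agent.Results.MP_8888ff_co.EvenCycleFamily.result :
    ∃ K : Set ℕ, 4 ∈ K ∧ (∀ ℓ ∈ K, Even ℓ ∧ 4 ≤ ℓ) ∧
    ∀ c : ℝ, 0 < c → ∀ m : ℕ, ∃ Δ : ℕ, m ≤ Δ ∧ 0 < Δ ∧
      (∃ T : SimpleGraph (Fin Δ), (∀ ℓ ∈ K, ¬ (cycleGraph ℓ).IsContained T) ∧
        1 < c * (T.edgeSet.ncard : ℝ) * (Δ : ℝ) / (Δ : ℝ) ^ 2) ∧
      ∃ (n : ℕ) (G : SimpleGraph (Fin n)), 0 < n ∧ (∀ v, (G.neighborSet v).ncard = Δ) ∧
        ∀ H : SimpleGraph (Fin n), H ≤ G → (∀ ℓ ∈ K, ¬ (cycleGraph ℓ).IsContained H) →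
          ∃ v, (H.neighborSet v).ncard ≤ 1 :=
  Q116.Cyc.main
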